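import Pool.Agent.W2helper26.PB.Stm

/-!
# Piece CORE of project PB (helper26): a decision tree finds a hit with small probability
-/

set_option autoImplicit false

namespace Pool.Agent.W2helper18.PB

open Pool.Agent.NPC Pool.Agent.H620R2.Gauge Pool.Agent.W2helper26.PB MeasureTheory Filter

/-! ### Local sets -/

/-- sets which depend only on the strings of length at most some bound are measurable -/
theorem meas_of_loc {S : Set Oracle} (b : ℕ)
    (h : ∀ A A' : Oracle, (∀ u : List Bool, u.length ≤ b → A u = A' u) → A ∈ S → A' ∈ S) :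
    MeasurableSet S := by
  have hK : {u : List Bool | u.length ≤ b}.Finite := List.finite_length_le Bool b
  have : Finite {u : List Bool | u.length ≤ b} := hK
  let r : Oracle → ({u : List Bool | u.length ≤ b} → Bool) := fun A x => A x
  have hr : Measurable r := measurable_pi_lambda _ fun x => measurable_pi_apply _
  have hS : S = r ⁻¹' (r '' S) := by
    ext A
    constructor
    · intro hA
      exact ⟨A, hA, rfl⟩
    · rintro ⟨B, hB, hBA⟩
      refine h B A ?_ hB
      intro x hx
      exact congrFun hBA ⟨x, hx⟩
  rw [hS]
  exact hr (Set.toFinite _).measurableSet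

/-! ### Flipping bits -/

/-- flip the bits of `w` -/
def flp (w : Oracle) (B : Oracle) : Oracle := fun u => xor (B u) (w u)

theorem measurable_flp (w : Oracle) : Measurable (flp w) := by
  refine measurable_pi_lambda _ fun u => ?_
  unfold flp
  exact (measurable_of_countable (fun b : Bool => xor b (w u))).comp (measurable_pi_apply u)

theorem coinM_flip (c : Bool) (t : Set Bool) : coinM ((fun b => xor b c) ⁻¹' t) = coinM t := by
  cases c
  · congr 1
    ext b
    simp
  · unfold coinM
    rw [Measure.add_apply, Measure.add_apply, Measure.smul_apply, Measure.smul_apply,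
      Measure.smul_apply, Measure.smul_apply, Measure.dirac_apply, Measure.dirac_apply,
      Measure.dirac_apply, Measure.dirac_apply]
    have e1 : Set.indicator ((fun b => xor b true) ⁻¹' t) (1 : Bool → ENNReal) true =
        Set.indicator t 1 false := by
      by_cases h : false ∈ t <;> simp [Set.indicator, h]
    have e2 : Set.indicator ((fun b => xor b true) ⁻¹' t) (1 : Bool → ENNReal) false =
        Set.indicator t 1 true := by
      by_cases h : true ∈ t <;> simp [Set.indicator, h]
    rw [e1, e2, add_comm]

theorem map_flp (w : Oracle) : Measure.map (flp w) ranO = ranO := by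
  refine Measure.eq_infinitePi (fun _ : List Bool => coinM) ?_
  intro s t ht
  rw [Measure.map_apply (measurable_flp w) (MeasurableSet.pi s.countable_toSet
    (fun i _ => ht i))]
  have e : flp w ⁻¹' (Set.pi (s : Set (List Bool)) t) =
      Set.pi (s : Set (List Bool)) (fun u => (fun b => xor b (w u)) ⁻¹' (t u)) := by
    ext B
    simp only [Set.mem_preimage, Set.mem_pi, flp]
  rw [e]
  unfold ranO
  rw [Measure.infinitePi_pi (fun _ : List Bool => coinM)
    (fun i _ => measurable_of_countable _ (ht i))]
  exact Finset.prod_congr rfl fun u _ => coinM_flip _ _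

/-- the indicator of `x` -/
def one (x : List Bool) : Oracle := fun u => decide (u = x)

theorem flp_flp (w B : Oracle) : flp w (flp w B) = B := by
  funext u
  simp [flp]

theorem flp_one_self (x : List Bool) (B : Oracle) : flp (one x) B x = !B x := by
  simp [flp, one]

theorem flp_one_ne {x u : List Bool} (h : u ≠ x) (B : Oracle) : flp (one x) B u = B u := by
  simp [flp, one, h]

theorem measurableSet_true (x : List Bool) : MeasurableSet {B : Oracle | B x = true} := by
  refine meas_of_loc x.length fun A A' h hA => ?_
  exact (h x le_rfl).symm.trans hA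

theorem half (x : List Bool) {T : Set Oracle} (hT : MeasurableSet T)
    (hinv : ∀ B, B ∈ T → flp (one x) B ∈ T) : ranO (T ∩ {B | B x = true}) * 2 = ranO T := by
  have hx := measurableSet_true x
  have h1 := measure_inter_add_sdiff (μ := ranO) T hx
  have h2 : ranO (T \ {B | B x = true}) = ranO (T ∩ {B | B x = true}) := by
    conv_lhs => rw [← map_flp (one x)]
    rw [Measure.map_apply (measurable_flp _) (hT.diff hx)]
    congr 1
    ext B
    constructor
    · rintro ⟨hB1, hB2⟩
      refine ⟨?_, ?_⟩
      · have := hinv _ hB1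
        rwa [flp_flp] at this
      · have h3 : ¬ flp (one x) B x = true := hB2
        rw [flp_one_self] at h3
        show B x = true
        revert h3
        cases B x <;> simp
    · rintro ⟨hB1, hB2⟩
      refine ⟨hinv _ hB1, ?_⟩
      show ¬ flp (one x) B x = true
      rw [flp_one_self]
      have h3 : B x = true := hB2
      rw [h3]
      simp
  rw [h2] at h1
  rw [← h1, mul_two]

theorem pows (X : Finset (List Bool)) {T : Set Oracle} (hT : MeasurableSet T)
    (hinv : ∀ x ∈ X, ∀ B, B ∈ T → flp (one x) B ∈ T) :
    MeasurableSet (T ∩ {B | ∀ u ∈ X, B u = true}) ∧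
      ranO (T ∩ {B | ∀ u ∈ X, B u = true}) * 2 ^ X.card = ranO T := by
  classical
  induction X using Finset.induction_on with
  | empty =>
    have e : T ∩ {B : Oracle | ∀ u ∈ (∅ : Finset (List Bool)), B u = true} = T := by
      ext B
      simp
    rw [e]
    exact ⟨hT, by simp⟩
  | insert x X hx ih =>
    obtain ⟨ih1, ih2⟩ := ih fun y hy => hinv y (Finset.mem_insert_of_mem hy)
    have e : T ∩ {B : Oracle | ∀ u ∈ insert x X, B u = true} =
        (T ∩ {B | ∀ u ∈ X, B u = true}) ∩ {B | B x = true} := by
      ext B
      simp only [Finset.mem_insert, forall_eq_or_imp, Set.mem_inter_iff, Set.mem_ofPred_eq]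
      tauto
    rw [e]
    refine ⟨ih1.inter (measurableSet_true x), ?_⟩
    rw [Finset.card_insert_of_notMem hx, pow_succ, mul_comm (2 ^ X.card) 2, ← mul_assoc,
      half x ih1 ?_, ih2]
    rintro B ⟨hB1, hB2⟩
    refine ⟨hinv x (Finset.mem_insert_self _ _) B hB1, fun u hu => ?_⟩
    have hne : u ≠ x := fun h => hx (h ▸ hu)
    rw [flp_one_ne hne]
    exact hB2 u hu

/-! ### Planting -/

open Classical in
/-- set the bits of `X` to `true` -/
noncomputable def plant (X : Finset (List Bool)) (B : Oracle) : Oracle :=
  fun u => if u ∈ X then true else B u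

theorem plant_flp {X : Finset (List Bool)} {x : List Bool} (hx : x ∈ X) (B : Oracle) :
    plant X (flp (one x) B) = plant X B := by
  classical
  funext u
  unfold plant
  by_cases hu : u ∈ X
  · rw [if_pos hu, if_pos hu]
  · have hne : u ≠ x := fun h => hu (h ▸ hx)
    rw [if_neg hu, if_neg hu, flp_one_ne hne]

theorem plant_of {X : Finset (List Bool)} {B : Oracle} (h : ∀ u ∈ X, B u = true) :
    plant X B = B := by
  classical
  funext u
  unfold plant
  by_cases hu : u ∈ X
  · rw [if_pos hu, h u hu]
  · rw [if_neg hu]

theorem hs_inj {w w' : List Bool} {r r' : ℕ} (h : hs w r = hs w' r') : w = w' ∧ r = r' := by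
  unfold hs at h
  have h1 := congrArg unpair (List.cons.inj h).2
  rw [unpair_pairBits, unpair_pairBits] at h1
  obtain ⟨h2, h3⟩ := Prod.mk.inj h1
  refine ⟨h2, ?_⟩
  have h4 := congrArg List.length h3
  simpa using h4

open Classical in
/-- the strings of the candidate `w` -/
noncomputable def Xs (w : List Bool) : Finset (List Bool) := (Finset.range (hb w.length)).image (hs w)

theorem card_Xs (w : List Bool) : (Xs w).card = hb w.length := by
  classical
  unfold Xs
  rw [Finset.card_image_of_injective _ (fun r r' h => (hs_inj h).2), Finset.card_range]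

theorem mem_Xs {w u : List Bool} : u ∈ Xs w ↔ ∃ r < hb w.length, hs w r = u := by
  classical
  unfold Xs
  simp only [Finset.mem_image, Finset.mem_range]

theorem p_core : P_core := by
  classical
  intro n D ℓ W Q hQ hW hloc
  set w : (Fin n → Bool) → List Bool := fun v => List.ofFn v with hw
  have hwlen : ∀ v, (w v).length = n := fun v => by simp [hw]
  have hwinj : Function.Injective w := List.ofFn_injective
  set T : (Fin n → Bool) → Set Oracle := fun v => {B | W (plant (Xs (w v)) B) = w v} with hTdef
  have hTm : ∀ v, MeasurableSet (T v) := by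
    intro v
    refine meas_of_loc ℓ fun A A' h hA => ?_
    have h1 : W (plant (Xs (w v)) A) = W (plant (Xs (w v)) A') := by
      refine (hloc _ _ fun y hy => ?_).1
      unfold plant
      rw [h y hy]
    exact h1.symm.trans hA
  have hTinv : ∀ v, ∀ x ∈ Xs (w v), ∀ B, B ∈ T v → flp (one x) B ∈ T v := by
    intro v x hx B hB
    show W (plant (Xs (w v)) (flp (one x) B)) = w v
    rw [plant_flp hx]
    exact hB
  -- the event is covered
  have hcov : {B | (W B).length = n ∧ Hit B (W B)} ⊆
      ⋃ v : Fin n → Bool, (T v ∩ {B | ∀ u ∈ Xs (w v), B u = true}) := by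
    rintro B ⟨hB1, hB2⟩
    obtain ⟨v, hv⟩ : ∃ v, w v = W B := by
      refine ⟨fun i => (W B).get (i.cast hB1.symm), ?_⟩
      apply List.ext_getElem
      · rw [hwlen, hB1]
      · intro i h1 h2
        simp [hw]
    have h3 : ∀ u ∈ Xs (w v), B u = true := by
      intro u hu
      obtain ⟨r, hr, rfl⟩ := mem_Xs.1 hu
      rw [hv] at hr ⊢
      exact hB2 r hr
    refine Set.mem_iUnion.2 ⟨v, ?_, h3⟩
    show W (plant (Xs (w v)) B) = w v
    rw [plant_of h3, hv]
  -- the number of the candidates which are found after planting
  have hcount : ∀ B : Oracle, (Finset.univ.filter (fun v => B ∈ T v)).card ≤ D + 1 := by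
    intro B
    have h1 : Finset.univ.filter (fun v => B ∈ T v) ⊆
        Finset.univ.filter (fun v => w v = W B) ∪
          Finset.univ.filter (fun v => ∃ y ∈ Q B, y ∈ Xs (w v)) := by
      intro v hv
      rw [Finset.mem_filter] at hv
      rw [Finset.mem_union, Finset.mem_filter, Finset.mem_filter]
      by_cases h : ∃ y ∈ Q B, y ∈ Xs (w v)
      · exact Or.inr ⟨Finset.mem_univ _, h⟩
      · left
        refine ⟨Finset.mem_univ _, ?_⟩
        have h2 : W B = W (plant (Xs (w v)) B) := by
          refine hW _ _ fun y hy => ?_
          have h3 : y ∉ Xs (w v) := fun h3 => h ⟨y, hy, h3⟩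
          unfold plant
          rw [if_neg h3]
        rw [h2]
        exact hv.2.symm
    have h2 : (Finset.univ.filter (fun v => w v = W B)).card ≤ 1 := by
      rw [Finset.card_le_one]
      intro a ha b hb
      rw [Finset.mem_filter] at ha hb
      exact hwinj (ha.2.trans hb.2.symm)
    have h3 : (Finset.univ.filter (fun v => ∃ y ∈ Q B, y ∈ Xs (w v))).card ≤ (Q B).card := by
      set f : (Fin n → Bool) → List Bool := fun v =>
        if h : ∃ y ∈ Q B, y ∈ Xs (w v) then h.choose else [] with hf
      have hfs : ∀ v, (∃ y ∈ Q B, y ∈ Xs (w v)) → f v ∈ Q B ∧ f v ∈ Xs (w v) := by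
        intro v h
        rw [hf]
        simp only [dif_pos h]
        exact h.choose_spec
      refine Finset.card_le_card_of_injOn f (fun v hv => ?_) fun v hv v' hv' hvv => ?_
      · exact (hfs v (Finset.mem_filter.1 hv).2).1
      · have h4 := (hfs v (Finset.mem_filter.1 hv).2).2
        have h5 := (hfs v' (Finset.mem_filter.1 hv').2).2
        rw [← hvv] at h5
        obtain ⟨r, -, hr⟩ := mem_Xs.1 h4
        obtain ⟨r', -, hr'⟩ := mem_Xs.1 h5
        exact hwinj (hs_inj (hr.trans hr'.symm)).1
    calc (Finset.univ.filter (fun v => B ∈ T v)).card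
        ≤ _ := Finset.card_le_card h1
      _ ≤ _ := Finset.card_union_le _ _
      _ ≤ 1 + D := add_le_add h2 (h3.trans (hQ B))
      _ = D + 1 := add_comm _ _
  have hsum : ∑ v, ranO (T v) ≤ (D : ENNReal) + 1 := by
    calc ∑ v, ranO (T v) = ∑ v, ∫⁻ B, (T v).indicator (fun _ => (1 : ENNReal)) B ∂ranO := by
          refine Finset.sum_congr rfl fun v _ => ?_
          rw [lintegral_indicator_const (hTm v), one_mul]
      _ = ∫⁻ B, ∑ v, (T v).indicator (fun _ => (1 : ENNReal)) B ∂ranO := by
          rw [lintegral_finsetSum]
          intro v _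
          exact measurable_const.indicator (hTm v)
      _ ≤ ∫⁻ _, ((D : ENNReal) + 1) ∂ranO := by
          refine lintegral_mono fun B => ?_
          have h1 : ∑ v, (T v).indicator (fun _ => (1 : ENNReal)) B =
              ((Finset.univ.filter (fun v => B ∈ T v)).card : ENNReal) := by
            rw [Finset.card_filter, Nat.cast_sum]
            refine Finset.sum_congr rfl fun v _ => ?_
            by_cases h : B ∈ T v
            · rw [Set.indicator_of_mem h, if_pos h, Nat.cast_one]
            · rw [Set.indicator_of_notMem h, if_neg h, Nat.cast_zero]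
          show ∑ v, (T v).indicator (fun _ => (1 : ENNReal)) B ≤ (D : ENNReal) + 1
          rw [h1]
          have h2 : ((Finset.univ.filter (fun v => B ∈ T v)).card : ENNReal) ≤ ((D + 1 : ℕ) : ENNReal) :=
            Nat.cast_le.2 (hcount B)
          refine h2.trans (le_of_eq ?_)
          rw [Nat.cast_add, Nat.cast_one]
      _ = (D : ENNReal) + 1 := by
          rw [lintegral_const, measure_univ, mul_one]
  have hmul : ranO {B | (W B).length = n ∧ Hit B (W B)} * 2 ^ hb n ≤ (D : ENNReal) + 1 := by
    calc ranO {B | (W B).length = n ∧ Hit B (W B)} * 2 ^ hb n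
        ≤ (∑ v, ranO (T v ∩ {B | ∀ u ∈ Xs (w v), B u = true})) * 2 ^ hb n := by
          gcongr
          refine (measure_mono hcov).trans ?_
          refine (measure_iUnion_le _).trans ?_
          rw [tsum_fintype]
      _ = ∑ v, ranO (T v) := by
          rw [Finset.sum_mul]
          refine Finset.sum_congr rfl fun v _ => ?_
          have h1 := (pows (Xs (w v)) (hTm v) (hTinv v)).2
          rw [card_Xs, hwlen] at h1
          exact h1
      _ ≤ _ := hsum
  have h2 : (2 : ENNReal) ^ hb n ≠ 0 := by positivity
  have h3 : (2 : ENNReal) ^ hb n ≠ ⊤ := ENNReal.pow_ne_top (by norm_num)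
  have h4 : ranO {B | (W B).length = n ∧ Hit B (W B)} ≤ ((D : ENNReal) + 1) / 2 ^ hb n :=
    (ENNReal.le_div_iff_mul_le (Or.inl h2) (Or.inl h3)).2 hmul
  refine h4.trans (le_of_eq ?_)
  rw [ENNReal.ofReal_mul (by positivity), ENNReal.ofReal_pow (by norm_num), one_div,
    ENNReal.ofReal_inv_of_pos (by norm_num), div_eq_mul_inv, ENNReal.inv_pow]
  congr 1
  · rw [ENNReal.ofReal_add (by positivity) (by norm_num)]
    simp
  · simp

end Pool.Agent.W2helper18.PB
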